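import Pool.Agent.U131.SX.Mon

/-!
# The classes outside the ray class group, up to one square root

The order is the ring of integers of the real quadratic field `F`, with the real places `∞₁` (given
by `ι`) and `∞₂` (given by `w`); `H` is the ray class field of modulus `𝔪∞₂`, `z` the complex
conjugation above `∞₂`, which is the Artin symbol of the ideals `𝔯` in the class `R`, and `Z σ` are
the partial zeta functions modulo `𝔪∞₂`; `Hecke` contains known facts: continuation, `Z σ 0 = 0`, and
the double zero of `Z σ + Z (z σ)` at `0`.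

If conditions (i), (ii) and (iii) hold for the classes in the ray class GROUPS of the moduli `𝔪𝔮`,
where the classes of the primes `𝔮` generate the ray class group modulo `𝔪∞₂`, then for the classes
`A` modulo `𝔪∞₂`, which occur in the ray class monoids modulo `𝔪𝔮∞₂` as the non-invertible classes
`𝔮 A`, the numbers `exp (-Z'(0, A))` are `√δ k_A` with one `δ` in `F` and elements `k_A` of `H`,
permuted by the Artin symbols, and `δ k_A²` is a unit of absolute value one above `∞₂`.
-/

set_option autoImplicit false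

namespace Pool.Agent.Results.MP_6bf7a3_nt.OutsideTheGroup

open NumberField Pool.Agent.U131.SX
open Pool.Agent.U131.SR.Lay (Agree)
open Pool.Agent.K4H33.SK (Qbar GQ)
open Pool.Agent.K4H33.SK.Stmt (Sub Ideals prd)

theorem result (ι w : Qbar →+* ℂ) (F H : Sub) [NumberField F] (𝔪 : Ideals F)
    (art : Ideals F → GQ) (z : GQ) (Z : GQ → ℂ → ℂ) (h : RayBase ι w F H 𝔪 art z Z)
    (Q : Set (Ideals F)) (hQ : ∀ 𝔮 ∈ Q, Aux F 𝔪 𝔮 ∧ GroupPart ι F H (prd F 𝔪 𝔮) art z)
    (hg : Generate F H art Q) (𝔯 : Ideals F) (hr : InR ι F 𝔪 𝔯) (hrz : Agree H (art 𝔯) z) :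
    ∃ (δ : Qbar) (k : Ideals F → Qbar), TwistMon ι F H 𝔪 art 𝔯 δ k :=
  twist_mon h hQ hg hr hrz

end Pool.Agent.Results.MP_6bf7a3_nt.OutsideTheGroup
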