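import Pool.Agent.U8.MSP.Main

/-!
# The units of the monoid Stark conjecture of an order as powers

Let `O ≤ O'` be orders of the real quadratic field `K` and `m` a modulus of `O`, and let `ε'` be units
of the ray class field `H'` of `O'` and `(m : O')` with the conditions (i), (ii), (iii) of Q1. Then
there are units `ε` of the ray class field `H ≤ H'` of `O` and `m` with (i), (ii), (iii), such that:

1. if `n` divides the number of the ideals `x ⊆ O` in the class of `a` with `O' x = I`, for all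
   ideals `I` of `O'`, then `ε a` is the `n`-th power of a unit of `H'`;
2. if `m` is an ideal of `O'` and `u` is a unit of `O'`, positive at `∞₂`, not in `O`, such that
   `u ^ p` is a unit of `O` for a prime `p`, and `(u - 1) a ⊆ m`, then `p` divides these numbers, so
   that `ε a` is the `p`-th power of a unit of `H'`.

An example for 2, `p = 2`: `K = ℚ(√2)`, `O' = ℤ[√2]`, `O = ℤ[3√2]`, `m = 21 O'`, `u = 99 + 70√2`, all
`a ⊆ 3 O'`.
-/

set_option autoImplicit false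

namespace Pool.Agent.Results.MP_6bf7a3_nt.PowersInLargerFields

open Pool.Agent.W206.MS

variable {K : Type} [Field K] [NumberField K] [Algebra K ℝ]

/-- `H` with `Art` is the ray class field of `O` and `m`, and the `ε a` are units of `H`, depending
only on the class of `a`, with the conditions (i), (ii), (iii). -/
def StarkUnits (σ : K →+* ℝ) (O : Subalgebra ℤ K) (m : Submodule ℤ K) (H : IntermediateField K ℝ)
    (Art : Submodule ℤ K → (H ≃ₐ[K] H)) (ε : Submodule ℤ K → H) : Prop :=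
  IsRayClassField σ O m H Art ∧ ∀ a, InMonoid O m a →
      (∀ b, InMonoid O m b → Rel O m σ b a → ε b = ε a) ∧
      (IsIntegral ℤ (ε a : ℝ) ∧ IsIntegral ℤ (ε a : ℝ)⁻¹) ∧
      CondI σ O m a (ε a) ∧ CondII O m H Art ε a ∧ CondIII σ H (ε a)

/-- The number of invertible ideals `x ⊆ O` in the class of `a` with `O' x = I`. -/
noncomputable def multiplicity (O O' : Subalgebra ℤ K) (m : Submodule ℤ K) (σ : K →+* ℝ)
    (I a : Submodule ℤ K) : ℕ :=
  {x : Submodule ℤ K | IsInv O x ∧ x ≤ OL O ∧ Rel O m σ x a ∧ OL O' * x = I}.ncard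

/-- `e` is the `n`-th power of a unit of `H'`. -/
def IsPowerIn (H' : IntermediateField K ℝ) (n : ℕ) (e : ℝ) : Prop :=
  ∃ η : H', IsIntegral ℤ (η : ℝ) ∧ IsIntegral ℤ (η : ℝ)⁻¹ ∧ (η : ℝ) ^ n = e

/-- There is a unit `u` of `O'` with `u > 0` at `∞₂`, `u ∉ O`, `u ^ p ∈ Oˣ` and `(u - 1) a ⊆ m`. -/
def HasRootUnit (σ : K →+* ℝ) (O O' : Subalgebra ℤ K) (m a : Submodule ℤ K) (p : ℕ) : Prop :=
  ∃ u : K, u ∈ O' ∧ u⁻¹ ∈ O' ∧ 0 < σ u ∧ u ∉ O ∧ u ^ p ∈ O ∧ (u ^ p)⁻¹ ∈ O ∧
    ∀ z ∈ a, (u - 1) * z ∈ m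

theorem result (_hK : Module.finrank ℚ K = 2) (σ : K →+* ℝ) (_hσ : σ ≠ algebraMap K ℝ)
    (O O' : Subalgebra ℤ K) (m : Submodule ℤ K) (hO : IsOrder O) (hO' : IsOrder O') (hle : O ≤ O')
    (hm : IsModulus O m) (H' : IntermediateField K ℝ) (Art' : Submodule ℤ K → (H' ≃ₐ[K] H'))
    (ε' : Submodule ℤ K → H') (h : StarkUnits σ O' (m / OL O') H' Art' ε') :
    ∃ (H : IntermediateField K ℝ) (Art : Submodule ℤ K → (H ≃ₐ[K] H)) (ε : Submodule ℤ K → H),
      H ≤ H' ∧ StarkUnits σ O m H Art ε ∧ ∀ a, InMonoid O m a →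
        (∀ n : ℕ, (∀ I, IsInv O' I → I ≤ OL O' → n ∣ multiplicity O O' m σ I a) →
          IsPowerIn H' n (ε a)) ∧
        (OL O' * m ≤ m → ∀ p : ℕ, p.Prime → HasRootUnit σ O O' m a p →
          (∀ I, IsInv O' I → I ≤ OL O' → p ∣ multiplicity O O' m σ I a) ∧
            IsPowerIn H' p (ε a)) := by
  have P := mkPair hO hO' hle hm
  obtain ⟨H, Art, ε, h1, h2, h3⟩ := Pool.Agent.U8.MSP.reduction_pow σ P H' Art' ε' h
  have hmul : ∀ a, InMonoid O m a → ∀ I, multiplicity O O' m σ I a = nn O O' m σ I a := by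
    intro a ha I
    unfold multiplicity nn XS
    congr 1
    ext x
    change _ ∧ _ ∧ _ ∧ _ ↔ _ ∧ _ ∧ _ ∧ _
    rw [rel_iff P.mM P.fin_m ha]
  refine ⟨H, Art, ε, h1, h2, fun a ha => ?_⟩
  have h4 : ∀ n : ℕ, (∀ I, IsInv O' I → I ≤ OL O' → n ∣ multiplicity O O' m σ I a) →
      IsPowerIn H' n (ε a) := fun n hn => h3 a ha n fun I hI hI' => by
    rw [← hmul a ha I]
    exact hn I hI hI'
  refine ⟨h4, fun hst p hp hu => ?_⟩
  have hb : m / OL O' = m := Pool.Agent.U8.MSW.colon_eq (O := O) hst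
  have h5 : ∀ I, IsInv O' I → I ≤ OL O' → p ∣ multiplicity O O' m σ I a := by
    intro I hI _
    obtain ⟨u, a1, a2, a3, a4, a5, a6, a7⟩ := hu
    rw [hmul a ha I]
    refine Pool.Agent.U8.MSP.prime_dvd_nn P hI a1 a2 a3 a4 hp a5 a6 ?_
    rw [hb]
    exact Pool.Agent.U8.MSW.act_of_one P.mM hle hst a1 a7
  exact ⟨h5, h4 p h5⟩

end Pool.Agent.Results.MP_6bf7a3_nt.PowersInLargerFields
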