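import Pool.Agent.U8.MSW.Main

/-!
# The monoid Stark conjecture without square roots, and where the square roots are automatic

The condition (iv) of Q1 (the square root of `ε_A` generates an abelian extension of `K`) is the
difference between the Stark-Tate conjecture and the Stark conjecture. Let `O ≤ O'` be orders of the
real quadratic field `K` and `m` a modulus of `O`.

1. The conditions (i), (ii), (iii) for `O'` and `(m : O')` imply (i), (ii), (iii) for `O` and `m`. So
   (i), (ii), (iii) hold for all orders and moduli if and only if they hold for the maximal order,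
   that is, if and only if the Stark conjecture (without square roots) holds for `K`.
2. Condition (iv) passes to the class of `a` as soon as it holds for the classes of those ideals `I`
   of `O'` for which the number of ideals `x ⊆ O` in the class of `a` with `O' x = I` is odd.
3. Let `m` be an ideal of `O'`, and let `u` be a unit of `O'`, positive at `∞₂`, not in `O`, such
   that `u ^ 2` is a unit of `O`. If `(u - 1) a ⊆ m`, then these numbers are all even: for the class
   of `a` condition (iv) is automatic, it follows from (i), (ii), (iii) for `O'` and `m`. An example: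
   `K = ℚ(√2)`, `O' = ℤ[√2]`, `O = ℤ[3√2]`, `m = 21 O'`, `u = 99 + 70√2`, all `a ⊆ 3 O'`.

`K` is viewed as a subfield of `ℝ` through the embedding `algebraMap K ℝ` (the place `∞₁`), and
`σ` is the other embedding (the place `∞₂`).
-/

set_option autoImplicit false

namespace Pool.Agent.Results.MP_6bf7a3_nt.StarkWithoutRoots

open Pool.Agent.W206.MS

variable {K : Type} [Field K] [NumberField K] [Algebra K ℝ]

/-- The assertion of Q1 for the order `O` and the modulus `m`, with the condition (iv) only for the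
ideals `a` with `T a`: there are the ray class field and the Artin map, and there are units `ε a` of
the ray class field, depending only on the class of `a`, with (i), (ii), (iii), and with (iv) if
`T a`. -/
def StarkOn (σ : K →+* ℝ) (O : Subalgebra ℤ K) (m : Submodule ℤ K)
    (T : Submodule ℤ K → Prop) : Prop :=
  ∃ (H : IntermediateField K ℝ) (Art : Submodule ℤ K → (H ≃ₐ[K] H)),
    IsRayClassField σ O m H Art ∧
    ∃ ε : Submodule ℤ K → H, ∀ a, InMonoid O m a →
      (∀ b, InMonoid O m b → Rel O m σ b a → ε b = ε a) ∧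
      (IsIntegral ℤ (ε a : ℝ) ∧ IsIntegral ℤ (ε a : ℝ)⁻¹) ∧
      CondI σ O m a (ε a) ∧ CondII O m H Art ε a ∧ CondIII σ H (ε a) ∧
      (T a → CondIV H (ε a))

/-- Q1 without the condition (iv). -/
def WeakStark (σ : K →+* ℝ) (O : Subalgebra ℤ K) (m : Submodule ℤ K) : Prop :=
  StarkOn σ O m fun _ => False

/-- The number of invertible ideals `x ⊆ O` in the class of `a` with `O' x = I`. -/
noncomputable def multiplicity (O O' : Subalgebra ℤ K) (m : Submodule ℤ K) (σ : K →+* ℝ)
    (I a : Submodule ℤ K) : ℕ :=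
  {x : Submodule ℤ K | IsInv O x ∧ x ≤ OL O ∧ Rel O m σ x a ∧ OL O' * x = I}.ncard

/-- There is a unit `u` of `O'` with `u > 0` at `∞₂`, `u ∉ O`, `u ^ 2 ∈ Oˣ` and `(u - 1) a ⊆ m`. -/
def HasSquareRootUnit (σ : K →+* ℝ) (O O' : Subalgebra ℤ K) (m a : Submodule ℤ K) : Prop :=
  ∃ u : K, u ∈ O' ∧ u⁻¹ ∈ O' ∧ 0 < σ u ∧ u ∉ O ∧ u ^ 2 ∈ O ∧ (u ^ 2)⁻¹ ∈ O ∧
    ∀ z ∈ a, (u - 1) * z ∈ m

theorem result (_hK : Module.finrank ℚ K = 2) (σ : K →+* ℝ) (_hσ : σ ≠ algebraMap K ℝ) :
    ((∀ (O : Subalgebra ℤ K) (m : Submodule ℤ K), IsOrder O → IsModulus O m →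
        WeakStark σ O m) ↔
      (∀ m : Submodule ℤ K, IsModulus (integralClosure ℤ K) m →
        WeakStark σ (integralClosure ℤ K) m)) ∧
    (∀ (O O' : Subalgebra ℤ K) (m : Submodule ℤ K) (T : Submodule ℤ K → Prop), IsOrder O →
      IsOrder O' → O ≤ O' → IsModulus O m → StarkOn σ O' (m / OL O') T →
      StarkOn σ O m fun a => ∀ I, IsInv O' I → I ≤ OL O' →
        T I ∨ Even (multiplicity O O' m σ I a)) ∧
    (∀ (O O' : Subalgebra ℤ K) (m : Submodule ℤ K), IsOrder O → IsOrder O' → O ≤ O' →
      IsModulus O m → OL O' * m ≤ m → WeakStark σ O' m →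
      StarkOn σ O m (HasSquareRootUnit σ O O' m)) := by
  have h2 : ∀ (O O' : Subalgebra ℤ K) (m : Submodule ℤ K) (T : Submodule ℤ K → Prop), IsOrder O →
      IsOrder O' → O ≤ O' → IsModulus O m → StarkOn σ O' (m / OL O') T →
      StarkOn σ O m fun a => ∀ I, IsInv O' I → I ≤ OL O' →
        T I ∨ Even (multiplicity O O' m σ I a) := by
    intro O O' m T hO hO' hle hm h
    have P := mkPair hO hO' hle hm
    refine (Pool.Agent.U8.MSW.reduction_on σ P h).mono fun a ha hT I hI hI' => ?_
    rcases hT I hI hI' with h1 | h1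
    · exact Or.inl h1
    · refine Or.inr ?_
      have : multiplicity O O' m σ I a = nn O O' m σ I a := by
        unfold multiplicity nn XS
        congr 1
        ext x
        change _ ∧ _ ∧ _ ∧ _ ↔ _ ∧ _ ∧ _ ∧ _
        rw [rel_iff P.mM P.fin_m ha]
      rwa [← this]
  have hmax := isOrder_maxOrder K
  refine ⟨⟨fun h m hm => h _ m hmax hm, fun h O m hO hm => ?_⟩, h2, ?_⟩
  · have hle : O ≤ integralClosure ℤ K := mem_maxOrder_of_fg hO.1
    have h1 := h _ (colon_isModulus hO hmax hle hm)
    exact Pool.Agent.U8.MSW.StarkOn.mono (h2 O _ m _ hO hmax hle hm h1) fun a _ h => h.elim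
  · intro O O' m hO hO' hle hm hst h
    have P := mkPair hO hO' hle hm
    have hb : m / OL O' = m := Pool.Agent.U8.MSW.colon_eq (O := O) hst
    refine (Pool.Agent.U8.MSW.reduction_on σ P (T := fun _ => False) (by rw [hb]; exact h)).mono
      fun a ha hT I hI _ => Or.inr ?_
    obtain ⟨u, a1, a2, a3, a4, a5, a6, a7⟩ := hT
    refine Pool.Agent.U8.MSW.even_nn P hI a1 a2 a3 a4 a5 a6 ?_
    rw [hb]
    exact Pool.Agent.U8.MSW.act_of_one P.mM hle hst a1 a7

end Pool.Agent.Results.MP_6bf7a3_nt.StarkWithoutRoots
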